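import Mathlib
import Pool.Agent.Helper539.LGMain

namespace Pool.Agent.Results.MP_d8fac8_al.CardinalSum

universe u

/-- An ℓ-embedding: an injective group homomorphism preserving meets and joins. -/
def IsLEmbedding {A B : Type*} [Group A] [Lattice A] [Group B] [Lattice B] (f : A →* B) : Prop :=
  Function.Injective f ∧ (∀ x y, f (x ⊓ y) = f x ⊓ f y) ∧ (∀ x y, f (x ⊔ y) = f x ⊔ f y)

/-- The cardinal sum of two copies of the integers, written multiplicatively: the lattice order
is componentwise. -/
abbrev CardSum : Type := Multiplicative ℤ × Multiplicative ℤ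

/-- Sanity check: the order of `CardSum` is the componentwise one. -/
theorem cardSum_le (a b c d : ℤ) :
    ((Multiplicative.ofAdd a, Multiplicative.ofAdd b) : CardSum) ≤
      (Multiplicative.ofAdd c, Multiplicative.ofAdd d) ↔ a ≤ c ∧ b ≤ d := Iff.rfl

/-- Two ℓ-groups `B`, `C` (groups with a lattice order invariant under left and right
translations) and ℓ-embeddings of the cardinal sum of two copies of the integers into them
such that no ℓ-group `D` (in any universe) amalgamates `B` and `C` over the cardinal sum. -/
theorem result :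
    ∃ (B : Type) (_ : Group B) (_ : Lattice B) (_ : MulLeftMono B) (_ : MulRightMono B)
      (C : Type) (_ : Group C) (_ : Lattice C) (_ : MulLeftMono C) (_ : MulRightMono C)
      (f : CardSum →* B) (g : CardSum →* C),
      IsLEmbedding f ∧ IsLEmbedding g ∧
      ¬ ∃ (D : Type u) (_ : Group D) (_ : Lattice D) (_ : MulLeftMono D) (_ : MulRightMono D)
        (f' : B →* D) (g' : C →* D),
        IsLEmbedding f' ∧ IsLEmbedding g' ∧ f'.comp f = g'.comp g := by
  obtain ⟨B, i1, i2, i3, i4, C, j1, j2, j3, j4, f, g, hf, hg, h⟩ :=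
    Pool.Agent.Helper539.LG.sum_main.{u}
  refine ⟨B, i1, i2, i3, i4, C, j1, j2, j3, j4, f, g, hf, hg, ?_⟩
  rintro ⟨D, k1, k2, k3, k4, f', g', hf', hg', e⟩
  exact h D f' g' hf' hg' e

end Pool.Agent.Results.MP_d8fac8_al.CardinalSum
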